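import Pool.Agent.Q296.KForest.Main

/-!
# Counting
-/

set_option autoImplicit false
set_option maxRecDepth 100000

namespace Pool.Agent.Q296.KForest

open SimpleGraph

lemma ok_of_acyclic {s : Finset (Fin 11)} (h : (gr s).IsAcyclic) : ok s = true := by
  have h0 : ∀ i : Fin 5, (i.castLE (by norm_num) : Fin 11) ∈ s →
      (gr s).Adj 0 ((i.natAdd 2).castLE (by norm_num)) := by
    intro i hi
    rw [gr_adj]
    refine ⟨_, hi, ?_⟩
    clear hi
    revert i
    decide +kernel
  have h1 : ∀ i : Fin 5, ((i.natAdd 5).castLE (by norm_num) : Fin 11) ∈ s →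
      (gr s).Adj ((i.natAdd 2).castLE (by norm_num)) 1 := by
    intro i hi
    rw [gr_adj]
    refine ⟨_, hi, ?_⟩
    clear hi
    revert i
    decide +kernel
  refine ok_of_pairs s ?_ ?_
  · intro i i' a b c d
    have := two_mid h (h0 i a) (h1 i b) (h0 i' c) (h1 i' d)
    have h2 : (2 : ℕ) + i = 2 + i' := congrArg (fun x : Fin 7 => (x : ℕ)) this
    exact Fin.ext (by omega)
  · intro i a b c
    refine mid_edge h (h0 i a) (h1 i b) ?_
    rw [gr_adj]
    exact ⟨10, c, by decide⟩

lemma forests_eq (k : ℕ) : forests G0 k =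
    ofS '' {s : Finset (Fin 11) | ok s = true ∧ s.card + k = 7} := by
  ext F
  simp only [forests, Set.mem_ofPred_eq, Set.mem_image, Fintype.card_fin]
  constructor
  · rintro ⟨h1, h2, h3⟩
    obtain ⟨s, rfl⟩ : ∃ s, ofS s = F := by
      classical
      refine ⟨Finset.univ.filter fun i => E i ∈ F, ?_⟩
      ext x
      unfold ofS
      simp only [Finset.mem_image, Finset.mem_filter, Finset.mem_univ, true_and]
      constructor
      · rintro ⟨i, hi, rfl⟩; exact hi
      · intro hx
        have := h1 (by exact_mod_cast hx : x ∈ (F : Set (Sym2 (Fin 7))))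
        rw [G0_edgeSet] at this
        obtain ⟨i, rfl⟩ := this
        exact ⟨i, hx, rfl⟩
    refine ⟨s, ⟨ok_of_acyclic h2, ?_⟩, rfl⟩
    rwa [card_ofS] at h3
  · rintro ⟨s, ⟨h1, h2⟩, rfl⟩
    refine ⟨?_, acyclic_of_ok h1, by rwa [card_ofS]⟩
    intro x hx
    rw [G0_edgeSet]
    have : x ∈ ofS s := by exact_mod_cast hx
    unfold ofS at this
    obtain ⟨i, _, rfl⟩ := Finset.mem_image.1 this
    exact ⟨i, rfl⟩

lemma ncard_forests (k : ℕ) : (forests G0 k).ncard =
    ((Finset.univ : Finset (Finset (Fin 11))).filter fun s => ok s = true ∧ s.card + k = 7).card := by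
  rw [forests_eq, Set.ncard_image_of_injective _ ofS_inj, ← Set.ncard_coe_finset]
  congr 1
  ext s
  simp

lemma ncard_forests_mem (k : ℕ) : {F ∈ forests G0 k | s(0, 1) ∈ F}.ncard =
    ((Finset.univ : Finset (Finset (Fin 11))).filter
      fun s => (ok s = true ∧ s.card + k = 7) ∧ 10 ∈ s).card := by
  have : {F ∈ forests G0 k | s(0, 1) ∈ F} =
      ofS '' {s : Finset (Fin 11) | (ok s = true ∧ s.card + k = 7) ∧ 10 ∈ s} := by
    rw [forests_eq]
    ext F
    constructor
    · rintro ⟨⟨s, hs, rfl⟩, hF⟩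
      refine ⟨s, ⟨hs, ?_⟩, rfl⟩
      exact (mem_ofS s 10).1 hF
    · rintro ⟨s, ⟨hs, h10⟩, rfl⟩
      exact ⟨⟨s, hs, rfl⟩, (mem_ofS s 10).2 h10⟩
  rw [this, Set.ncard_image_of_injective _ ofS_inj, ← Set.ncard_coe_finset]
  congr 1
  ext s
  simp

lemma c1 : ((Finset.univ : Finset (Finset (Fin 11))).filter
    fun s => ok s = true ∧ s.card + 1 = 7).card = 112 := by decide +kernel

lemma c2 : ((Finset.univ : Finset (Finset (Fin 11))).filter
    fun s => ok s = true ∧ s.card + 2 = 7).card = 272 := by decide +kernel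

lemma c1e : ((Finset.univ : Finset (Finset (Fin 11))).filter
    fun s => (ok s = true ∧ s.card + 1 = 7) ∧ 10 ∈ s).card = 32 := by decide +kernel

lemma c2e : ((Finset.univ : Finset (Finset (Fin 11))).filter
    fun s => (ok s = true ∧ s.card + 2 = 7) ∧ 10 ∈ s).card = 80 := by decide +kernel

lemma UF1 : UF G0 1 s(0, 1) = 2 / 7 := by
  unfold UF
  rw [ncard_forests, ncard_forests_mem, c1, c1e]
  norm_num

lemma UF2 : UF G0 2 s(0, 1) = 5 / 17 := by
  unfold UF
  rw [ncard_forests, ncard_forests_mem, c2, c2e]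
  norm_num

lemma mem_edge : s(0, 1) ∈ G0.edgeSet := by
  rw [G0_edgeSet]
  exact ⟨10, rfl⟩

lemma connected : G0.Connected := by
  have h01 : G0.Adj 0 1 := mem_edge
  have h0 : ∀ v : Fin 7, v ≠ 0 → G0.Adj 0 v := by
    intro v hv
    by_cases h1 : v = 1
    · rw [h1]; exact h01
    · have : s(0, v) ∈ G0.edgeSet := by
        rw [G0_edgeSet]
        revert v
        decide +kernel
      exact this
  rw [connected_iff_exists_forall_reachable]
  refine ⟨0, fun w => ?_⟩
  by_cases hw : w = 0
  · rw [hw]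
  · exact (h0 w hw).reachable

theorem not_nonincreasing : ¬ MarginalsNonincreasing := by
  intro h
  have := h 7 G0 connected _ mem_edge 1 le_rfl (by norm_num)
  rw [UF1, UF2] at this
  norm_num at this

end Pool.Agent.Q296.KForest
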