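import Mathlib

/-!
# Uniform forests with a given number of components
-/

set_option autoImplicit false

namespace Pool.Agent.Q296.KForest

/-- The (edge sets of the) forests of `G` with exactly `k` components, that is the acyclic sets of
edges of `G` with exactly `|V| - k` elements. -/
def forests {V : Type*} [Fintype V] (G : SimpleGraph V) (k : ℕ) : Set (Finset (Sym2 V)) :=
  {F | (F : Set (Sym2 V)) ⊆ G.edgeSet ∧
    (SimpleGraph.fromEdgeSet (F : Set (Sym2 V))).IsAcyclic ∧ F.card + k = Fintype.card V}

/-- `UF_k[ω(e) = 1]`: the probability that `e` belongs to a uniform forest with `k`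
components. -/
noncomputable def UF {V : Type*} [Fintype V] (G : SimpleGraph V) (k : ℕ) (e : Sym2 V) : ℚ :=
  ({F ∈ forests G k | e ∈ F}.ncard : ℚ) / ((forests G k).ncard : ℚ)

/-- The statement of the question: for every finite connected graph and every edge `e`, the map
`k ↦ UF_k[ω(e) = 1]` is non-increasing on `1 ≤ k ≤ |V|`. -/
def MarginalsNonincreasing : Prop :=
  ∀ (n : ℕ) (G : SimpleGraph (Fin n)), G.Connected → ∀ e ∈ G.edgeSet, ∀ k : ℕ,
    1 ≤ k → k < n → UF G (k + 1) e ≤ UF G k e

end Pool.Agent.Q296.KForest
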