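import Pool.Agent.Q296.KForest.Defs

/-!
# `K_{2,5}` plus an edge
-/

set_option autoImplicit false
set_option maxRecDepth 100000

namespace Pool.Agent.Q296.KForest

open SimpleGraph

/-- A graph whose vertices can be ranked such that every vertex has at most one neighbour of
smaller rank is acyclic. -/
theorem isAcyclic_of_rank {V : Type*} (G : SimpleGraph V) (r : V → ℕ) (hr : Function.Injective r)
    (h : ∀ v a b, G.Adj v a → G.Adj v b → r a < r v → r b < r v → a = b) : G.IsAcyclic := by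
  classical
  intro u c hc
  obtain ⟨v, hv, hmax⟩ := c.support.toFinset.exists_max_image r ⟨u, by simp⟩
  have hv' : v ∈ c.support := by simpa using hv
  set d := c.rotate v hv' with hd
  have hdc : d.IsCycle := hc.rotate hv'
  have hsup : ∀ w ∈ d.support, w ∈ c.support := by
    intro w hw
    have := (c.mem_support_rotate_iff v hv').1 hw
    exact this
  have hnil : ¬ d.Nil := hdc.not_nil
  have h1 : G.Adj v d.snd := d.adj_snd hnil
  have h2 : G.Adj v d.penultimate := (d.adj_penultimate hnil).symm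
  have hlt : ∀ w, w ∈ d.support → G.Adj v w → r w < r v := by
    intro w hw hadj
    refine lt_of_le_of_ne (hmax w (by simpa using hsup w hw)) ?_
    intro he
    exact hadj.ne (hr he).symm
  have h3 := hlt _ (d.getVert_mem_support 1) h1
  have h4 := hlt _ (d.getVert_mem_support _) h2
  exact hdc.snd_ne_penultimate (h v _ _ h1 h2 h3 h4)

/-- The eleven edges. -/
def E : Fin 11 → Sym2 (Fin 7) :=
  ![s(0, 2), s(0, 3), s(0, 4), s(0, 5), s(0, 6), s(1, 2), s(1, 3), s(1, 4), s(1, 5), s(1, 6),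
    s(0, 1)]

lemma E_inj : Function.Injective E := by decide +kernel

lemma E_not_diag (i : Fin 11) : ¬ (E i).IsDiag := by
  revert i
  decide +kernel

/-- The graph. -/
def G0 : SimpleGraph (Fin 7) := fromEdgeSet (Set.range E)

lemma G0_edgeSet : G0.edgeSet = Set.range E := by
  unfold G0
  rw [edgeSet_fromEdgeSet]
  ext x
  constructor
  · exact fun h => h.1
  · rintro ⟨i, rfl⟩
    exact ⟨⟨i, rfl⟩, E_not_diag i⟩

/-- The edge set with the given labels. -/
def ofS (s : Finset (Fin 11)) : Finset (Sym2 (Fin 7)) := s.image E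

lemma ofS_inj : Function.Injective ofS := Finset.image_injective E_inj

lemma card_ofS (s : Finset (Fin 11)) : (ofS s).card = s.card :=
  Finset.card_image_of_injective _ E_inj

lemma mem_ofS (s : Finset (Fin 11)) (i : Fin 11) : E i ∈ ofS s ↔ i ∈ s := by
  unfold ofS
  simp only [Finset.mem_image]
  constructor
  · rintro ⟨j, hj, hji⟩
    rw [← E_inj hji]; exact hj
  · intro h
    exact ⟨i, h, rfl⟩

/-- At most one of the six connections between `0` and `1` is present. -/
def ok (s : Finset (Fin 11)) : Bool :=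
  Nat.ble ((if 0 ∈ s ∧ 5 ∈ s then 1 else 0) + (if 1 ∈ s ∧ 6 ∈ s then 1 else 0) +
    (if 2 ∈ s ∧ 7 ∈ s then 1 else 0) + (if 3 ∈ s ∧ 8 ∈ s then 1 else 0) +
    (if 4 ∈ s ∧ 9 ∈ s then 1 else 0) + (if 10 ∈ s then 1 else 0)) 1

/-- The graph with the given labels. -/
def gr (s : Finset (Fin 11)) : SimpleGraph (Fin 7) := fromEdgeSet (ofS s : Set (Sym2 (Fin 7)))

lemma gr_adj (s : Finset (Fin 11)) (a b : Fin 7) : (gr s).Adj a b ↔ ∃ i ∈ s, E i = s(a, b) := by
  unfold gr
  rw [fromEdgeSet_adj]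
  constructor
  · rintro ⟨h, _⟩
    simpa [ofS] using h
  · rintro ⟨i, hi, he⟩
    refine ⟨?_, ?_⟩
    · rw [← he]
      exact_mod_cast (mem_ofS s i).2 hi
    · rintro rfl
      apply E_not_diag i
      rw [he]; simp

lemma gr_mono {s t : Finset (Fin 11)} (h : s ⊆ t) : gr s ≤ gr t := by
  intro a b hab
  rw [gr_adj] at hab ⊢
  obtain ⟨i, hi, he⟩ := hab
  exact ⟨i, h hi, he⟩

/-- A tree: all the middle vertices are leaves (at `0` if `side` is true, at `1` otherwise), except
the vertex `j`, which is joined to both; for `j = 5` the edge `01` is present. -/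
def treeSet (j : Fin 6) (side : Fin 5 → Bool) : Finset (Fin 11) :=
  Finset.univ.filter fun i : Fin 11 =>
    if h : (i : ℕ) < 5 then side ⟨i, h⟩ = true ∨ (i : ℕ) = j
    else if h : (i : ℕ) < 10 then side ⟨(i : ℕ) - 5, by omega⟩ = false ∨ (i : ℕ) - 5 = j
    else j = 5

/-- ranks -/
def rk (j : Fin 6) (v : Fin 7) : ℕ :=
  if v = 0 then 0 else if (v : ℕ) = j + 2 then 1 else if v = 1 then 2 else v + 3

lemma rk_inj (j : Fin 6) : Function.Injective (rk j) := by
  revert j
  decide +kernel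

/-- endpoints -/
def src : Fin 11 → Fin 7 := ![0, 0, 0, 0, 0, 1, 1, 1, 1, 1, 0]

/-- endpoints -/
def tgt : Fin 11 → Fin 7 := ![2, 3, 4, 5, 6, 2, 3, 4, 5, 6, 1]

lemma E_eq (i : Fin 11) : E i = s(src i, tgt i) := by
  revert i
  decide +kernel

/-- the endpoint of larger rank -/
def up (j : Fin 6) (i : Fin 11) : Fin 7 := if rk j (src i) < rk j (tgt i) then tgt i else src i

lemma up_inj : ∀ (j : Fin 6) (side : Fin 5 → Bool) (i i' : Fin 11), i ∈ treeSet j side →
    i' ∈ treeSet j side → up j i = up j i' → i = i' := by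
  decide +kernel

lemma up_eq {j : Fin 6} {i : Fin 11} {v a : Fin 7} (he : E i = s(v, a)) (hlt : rk j a < rk j v) :
    up j i = v := by
  rw [E_eq] at he
  unfold up
  rcases Sym2.eq_iff.1 he with ⟨h1, h2⟩ | ⟨h1, h2⟩
  · rw [h1, h2, if_neg (by omega)]
  · rw [h1, h2, if_pos hlt]

lemma tree_acyclic (j : Fin 6) (side : Fin 5 → Bool) : (gr (treeSet j side)).IsAcyclic := by
  refine isAcyclic_of_rank _ (rk j) (rk_inj j) ?_
  intro v a b ha hb hra hrb
  rw [gr_adj] at ha hb
  obtain ⟨i, hi, hie⟩ := ha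
  obtain ⟨i', hi', hie'⟩ := hb
  have h1 := up_eq hie hra
  have h2 := up_eq hie' hrb
  have h3 := up_inj j side i i' hi hi' (h1.trans h2.symm)
  rw [h3, hie'] at hie
  have := Sym2.congr_right.1 hie
  exact this.symm

/-- the link -/
def jj (s : Finset (Fin 11)) : Fin 6 :=
  if 0 ∈ s ∧ 5 ∈ s then 0 else if 1 ∈ s ∧ 6 ∈ s then 1 else if 2 ∈ s ∧ 7 ∈ s then 2 else
    if 3 ∈ s ∧ 8 ∈ s then 3 else if 4 ∈ s ∧ 9 ∈ s then 4 else 5

/-- the sides -/
def sd (s : Finset (Fin 11)) (k : Fin 5) : Bool := decide (k.castLE (by norm_num) ∈ s)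

lemma subset_tree : ∀ s : Finset (Fin 11), ok s = true → s ⊆ treeSet (jj s) (sd s) := by
  decide +kernel

lemma acyclic_of_ok {s : Finset (Fin 11)} (h : ok s = true) : (gr s).IsAcyclic :=
  IsAcyclic.anti (gr_mono (subset_tree s h)) (tree_acyclic _ _)

/-- Two different paths from `0` to `1` give a cycle. -/
lemma two_mid {H : SimpleGraph (Fin 7)} (h : H.IsAcyclic) {m m' : Fin 7} (h1 : H.Adj 0 m)
    (h2 : H.Adj m 1) (h3 : H.Adj 0 m') (h4 : H.Adj m' 1) : m = m' := by
  have hp : (Walk.cons h1 (Walk.cons h2 Walk.nil)).IsPath := by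
    simp [Walk.cons_isPath_iff, h1.ne, h2.ne]
  have hq : (Walk.cons h3 (Walk.cons h4 Walk.nil)).IsPath := by
    simp [Walk.cons_isPath_iff, h3.ne, h4.ne]
  have := (h.subsingleton_path 0 1).elim ⟨_, hp⟩ ⟨_, hq⟩
  have h5 := congrArg (fun p : H.Path 0 1 => p.1.support) this
  simpa using h5

lemma mid_edge {H : SimpleGraph (Fin 7)} (h : H.IsAcyclic) {m : Fin 7} (h1 : H.Adj 0 m)
    (h2 : H.Adj m 1) (h3 : H.Adj 0 1) : False := by
  have hp : (Walk.cons h1 (Walk.cons h2 Walk.nil)).IsPath := by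
    simp [Walk.cons_isPath_iff, h1.ne, h2.ne]
  have hq : (Walk.cons h3 Walk.nil).IsPath := by
    simp [Walk.cons_isPath_iff]
  have := (h.subsingleton_path 0 1).elim ⟨_, hp⟩ ⟨_, hq⟩
  have h5 := congrArg (fun p : H.Path 0 1 => p.1.support) this
  simp at h5

lemma ok_of_pairs : ∀ s : Finset (Fin 11),
    (∀ i i' : Fin 5, i.castLE (by norm_num) ∈ s → (i.natAdd 5).castLE (by norm_num) ∈ s →
      i'.castLE (by norm_num) ∈ s → (i'.natAdd 5).castLE (by norm_num) ∈ s → i = i') →
    (∀ i : Fin 5, i.castLE (by norm_num) ∈ s → (i.natAdd 5).castLE (by norm_num) ∈ s →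
      10 ∈ s → False) → ok s = true := by
  decide +kernel

end Pool.Agent.Q296.KForest
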